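import Pool.Agent.Q185.NP.Stm

/-!
# Project NP, job C4: descent to cocompactness of the lower central series
-/

set_option autoImplicit false
set_option linter.unusedSectionVars false

namespace Pool.Agent.Q210.NP

open Q70.Nil Topology Filter Set Pool.Agent.Q185.NP
open scoped commutatorElement Pointwise

theorem list_prod_mul {M ι : Type*} [Monoid M] (a b : ι → M) (hb : ∀ j x, b j * x = x * b j)
    (l : List ι) : (l.map fun j => a j * b j).prod = (l.map a).prod * (l.map b).prod := by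
  induction l with
  | nil => simp
  | cons j l ih =>
    rw [List.map_cons, List.prod_cons, ih, List.map_cons, List.prod_cons, List.map_cons,
      List.prod_cons]
    rw [mul_assoc, ← mul_assoc (b j), hb j, mul_assoc (List.map a l).prod, ← mul_assoc (a j)]

section

variable {G : Type} [Group G] [TopologicalSpace G] [IsTopologicalGroup G]

theorem coc_zero (hE : HasEx G) (Γ : Subgroup G) [CompactSpace (G ⧸ Γ)] : Coc Γ 0 := by
  classical
  obtain ⟨n, e, he⟩ := hE
  obtain ⟨B, hB⟩ : ∃ B, B = e '' Metric.closedBall (0 : Fin n → ℝ) 1 := ⟨_, rfl⟩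
  have hBc : IsCompact B := by
    rw [hB]
    exact (isCompact_closedBall _ _).image he.cont
  have hBn : B ∈ 𝓝 (1 : G) := by
    rw [hB]
    exact he.nhds _ (Metric.closedBall_mem_nhds _ one_pos)
  obtain ⟨t, -, ht⟩ := isCompact_univ.elim_nhds_subcover
    (fun ξ : G ⧸ Γ => (QuotientGroup.mk '' ((fun b => ξ.out * b) '' B) : Set (G ⧸ Γ))) (by
      intro ξ _
      have h1 : (fun b => ξ.out * b) '' B ∈ 𝓝 (ξ.out * 1) :=
        (Homeomorph.mulLeft ξ.out).isOpenMap.image_mem_nhds hBn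
      have h2 : (QuotientGroup.mk '' ((fun b => ξ.out * b) '' B) : Set (G ⧸ Γ)) ∈
          𝓝 (QuotientGroup.mk (ξ.out * 1)) := QuotientGroup.isOpenMap_coe.image_mem_nhds h1
      rw [mul_one, QuotientGroup.out_eq'] at h2
      exact h2)
  refine ⟨⋃ ξ ∈ t, (fun b => ξ.out * b) '' B, ?_, ?_, ?_⟩
  · exact t.isCompact_biUnion fun ξ _ => hBc.image (continuous_const_mul _)
  · exact fun x _ => L_zero_mem x
  · intro x _
    have h1 := ht (mem_univ (QuotientGroup.mk x : G ⧸ Γ))
    rw [mem_iUnion₂] at h1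
    obtain ⟨ξ, hξ, c, hc, hcx⟩ := h1
    refine ⟨c, mem_iUnion₂.2 ⟨ξ, hξ, hc⟩, c⁻¹ * x, QuotientGroup.eq.1 hcx, L_zero_mem _, ?_⟩
    rw [mul_inv_cancel_left]

theorem coc_bot (Γ : Subgroup G) {i : ℕ} (h : L G i = ⊥) : Coc Γ i := by
  refine ⟨{1}, isCompact_singleton, ?_, ?_⟩
  · rintro _ rfl
    exact one_mem _
  · intro x hx
    have h1 : x = 1 := by
      rw [h] at hx
      exact Subgroup.mem_bot.1 hx
    exact ⟨1, rfl, 1, one_mem _, one_mem _, by rw [h1, one_mul]⟩

theorem coc_step [T2Space G] (Γ : Subgroup G) [DiscreteTopology Γ] {i : ℕ} (hR : RD Γ i)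
    (hC : Coc Γ (i + 1)) : Coc Γ i := by
  classical
  obtain ⟨C, hCc, hCL, hCx⟩ := hC
  have hcl : IsClosed (L G (i + 1) : Set G) := by
    have h1 : IsClosed ((Γ ⊓ L G (i + 1) : Subgroup G) : Set G) := by
      have h2 : DiscreteTopology (Γ ⊓ L G (i + 1) : Subgroup G) :=
        DiscreteTopology.of_subset (s := (Γ : Set G)) ‹_› inf_le_left
      exact Subgroup.isClosed_of_discrete
    have h3 : (L G (i + 1) : Set G) = C * ((Γ ⊓ L G (i + 1) : Subgroup G) : Set G) := by
      ext x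
      constructor
      · intro hx
        obtain ⟨c, hc, γ, hγ, hγL, rfl⟩ := hCx x hx
        exact Set.mul_mem_mul hc ⟨hγ, hγL⟩
      · rintro ⟨c, hc, γ, hγ, rfl⟩
        exact mul_mem (hCL hc) hγ.2
    rw [h3]
    exact h1.mul_left_of_isCompact hCc
  have hLc : ∀ x, x ∈ Lc G (i + 1) → x ∈ L G (i + 1) := by
    intro x hx
    exact (Subgroup.topologicalClosure_minimal (L G (i + 1)) le_rfl hcl) hx
  obtain ⟨N, ψ, hψc, hψL, hψa, hψ1, hψx⟩ := hR
  choose γ hγΓ hγ using hψ1
  have hγL : ∀ j, γ j ∈ L G i := by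
    intro j
    have h1 := mul_mem (hψL j 1) (L_succ_le i (hLc _ (hγ j)))
    rwa [mul_inv_cancel_left] at h1
  -- the quotient
  obtain ⟨π, hπ, hπs⟩ : ∃ π : G →* G ⧸ L G (i + 1),
      (∀ x y, π x = π y ↔ x⁻¹ * y ∈ L G (i + 1)) ∧ Function.Surjective π :=
    ⟨QuotientGroup.mk' _, fun x y => QuotientGroup.eq, QuotientGroup.mk'_surjective _⟩
  have hcent : ∀ x ∈ L G i, ∀ y, π x * π y = π y * π x := by
    intro x hx y
    rw [← map_mul, ← map_mul, hπ]
    have h1 : (x * y)⁻¹ * (y * x) = ⁅y⁻¹, x⁻¹⁆ := by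
      rw [commutatorElement_def]
      group
    rw [h1]
    exact comm_mem' (inv_mem hx) _
  have hadd : ∀ j s t, π (ψ j (s + t)) = π (ψ j s) * π (ψ j t) := by
    intro j s t
    rw [← map_mul, hπ]
    exact hLc _ (hψa j s t)
  have hint : ∀ j (n : ℤ), π (ψ j n) = π (γ j) ^ n := by
    intro j n
    let f : Multiplicative ℝ →* G ⧸ L G (i + 1) := MonoidHom.mk' (fun t => π (ψ j t.toAdd))
      (fun s t => hadd j _ _)
    have h1 : f (Multiplicative.ofAdd (1 : ℝ) ^ n) = f (Multiplicative.ofAdd (1 : ℝ)) ^ n :=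
      map_zpow f _ _
    have h2 : Multiplicative.ofAdd (1 : ℝ) ^ n = Multiplicative.ofAdd (n : ℝ) := by
      rw [← ofAdd_zsmul]
      simp
    rw [h2] at h1
    have h3 : π (ψ j 1) = π (γ j) := (hπ _ _).2 (hLc _ (hγ j))
    rw [← h3]
    exact h1
  obtain ⟨P, hP⟩ : ∃ P : (Fin N → ℝ) → G, P = fun t =>
      ((List.finRange N).map fun j => ψ j (t j)).prod := ⟨_, rfl⟩
  have hPc : Continuous P := by
    rw [hP]
    exact continuous_list_prod _ fun j _ => (hψc j).comp (continuous_apply j)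
  have hPL : ∀ t, P t ∈ L G i := by
    intro t
    rw [hP]
    refine list_prod_mem fun x hx => ?_
    obtain ⟨j, -, rfl⟩ := List.mem_map.1 hx
    exact hψL j _
  obtain ⟨K, hK⟩ : ∃ K, K = P '' (Set.univ.pi fun _ => Set.Icc (0 : ℝ) 1) := ⟨_, rfl⟩
  have hKc : IsCompact K := by
    rw [hK]
    exact (isCompact_univ_pi fun _ => isCompact_Icc).image hPc
  refine ⟨K * C, hKc.mul hCc, ?_, ?_⟩
  · rintro _ ⟨k, hk, c, hc, rfl⟩
    rw [hK] at hk
    obtain ⟨t, -, rfl⟩ := hk
    exact mul_mem (hPL t) (L_succ_le i (hCL hc))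
  · intro x hx
    obtain ⟨t, ht⟩ := hψx x hx
    rw [List.ofFn_eq_map] at ht
    have h1 : π x = π (P t) := by
      rw [hπ, hP]
      exact hLc _ ht
    obtain ⟨g, hg⟩ : ∃ g, g = ((List.finRange N).map fun j => γ j ^ ⌊t j⌋).prod := ⟨_, rfl⟩
    have hgΓ : g ∈ Γ := by
      rw [hg]
      refine list_prod_mem fun y hy => ?_
      obtain ⟨j, -, rfl⟩ := List.mem_map.1 hy
      exact zpow_mem (hγΓ j) _
    have hgL : g ∈ L G i := by
      rw [hg]
      refine list_prod_mem fun y hy => ?_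
      obtain ⟨j, -, rfl⟩ := List.mem_map.1 hy
      exact zpow_mem (hγL j) _
    obtain ⟨κ, hκ⟩ : ∃ κ, κ = P fun j => Int.fract (t j) := ⟨_, rfl⟩
    have hκK : κ ∈ K := by
      rw [hκ, hK]
      refine ⟨_, ?_, rfl⟩
      intro j _
      exact ⟨Int.fract_nonneg _, (Int.fract_lt_one _).le⟩
    have h2 : π (P t) = π (κ * g) := by
      rw [map_mul, hκ, hg, hP, map_list_prod, map_list_prod, map_list_prod, List.map_map,
        List.map_map, List.map_map, ← list_prod_mul]
      · congr 1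
        refine List.map_congr_left fun j _ => ?_
        simp only [Function.comp_apply]
        rw [map_zpow, ← hint, ← hadd, Int.fract_add_floor]
      · intro j y
        obtain ⟨y, rfl⟩ := hπs y
        exact hcent _ (zpow_mem (hγL j) _) y
    have h3 : (κ * g)⁻¹ * x ∈ L G (i + 1) := by
      rw [← hπ, ← h2, h1]
    obtain ⟨y, hy⟩ : ∃ y, y = (κ * g)⁻¹ * x := ⟨_, rfl⟩
    rw [← hy] at h3
    have hxy : x = κ * g * y := by rw [hy, mul_inv_cancel_left]
    obtain ⟨c, hc, γ', hγ', hγ'L, hcg⟩ := hCx (g * y * g⁻¹) (L_conj h3 g)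
    refine ⟨κ * c, Set.mul_mem_mul hκK hc, γ' * g, mul_mem hγ' hgΓ,
      mul_mem (L_succ_le i hγ'L) hgL, ?_⟩
    have h4 : κ * c * (γ' * g) = κ * (c * γ') * g := by group
    rw [h4, ← hcg, hxy]
    group

end

/-- JOB C4. -/
theorem c4 : S_C4 := by
  intro G _ _ _ _ hnil hE Γ hd hc hR i
  obtain ⟨c, hcb⟩ : ∃ c, L G c = ⊥ := Subgroup.nilpotent_iff_lowerCentralSeries.1 hnil
  have key : ∀ j i, 1 ≤ i → c ≤ i + j → Coc Γ i := by
    intro j
    induction j with
    | zero =>
      intro i _ hi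
      refine coc_bot Γ ?_
      have h1 : L G i ≤ L G c := Subgroup.lowerCentralSeries_antitone _ hi
      rw [hcb] at h1
      exact le_bot_iff.1 h1
    | succ j ih =>
      intro i hi hij
      exact coc_step Γ (hR i hi) (ih (i + 1) (by omega) (by omega))
  rcases Nat.eq_zero_or_pos i with rfl | hi
  · exact coc_zero hE Γ
  · exact key c i hi (by omega)

end Pool.Agent.Q210.NP
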