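import Pool.Agent.Q185.NP.Stm

/-!
# Project NP, job SG: the group `H` lies in the orbit closure
-/

set_option autoImplicit false
set_option linter.unusedSectionVars false

namespace Pool.Agent.Q210.NP

open Q70.Nil Topology Filter Set Pool.Agent.Q185.NP
open scoped commutatorElement

section

variable {Q : Type} [Group Q] [TopologicalSpace Q] [IsTopologicalGroup Q]

theorem mem_OC_one {S Λ : Subgroup Q} {s l : Q} (hs : s ∈ S) (hl : l ∈ Λ) : s * l ∈ OC S Λ 1 :=
  subset_closure ⟨s, hs, l, hl, by rw [mul_one]⟩

theorem OC_mul_right {S Λ : Subgroup Q} {x w l : Q} (hw : w ∈ OC S Λ x) (hl : l ∈ Λ) :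
    w * l ∈ OC S Λ x := by
  have h1 : (fun w => w * l) '' OC S Λ x ⊆ OC S Λ x := by
    refine (image_closure_subset_closure_image (continuous_mul_const l)).trans (closure_mono ?_)
    rintro _ ⟨_, ⟨s, hs, k, hk, rfl⟩, rfl⟩
    exact ⟨s, hs, k * l, mul_mem hk hl, by simp only [mul_assoc]⟩
  exact h1 ⟨w, hw, rfl⟩

theorem dist_mul_right' (a b c : Circle) : dist (a * c) (b * c) = dist a b := by
  rw [dist_circle, dist_circle, Circle.coe_mul, Circle.coe_mul, ← sub_mul, norm_mul,
    Circle.norm_coe, mul_one]

/-- the subgroup of elements which multiply `φ` by a constant -/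
def KK (M : Set Q) (H : Subgroup Q) (hM : ∀ h ∈ H, ∀ w ∈ M, h * w ∈ M) (h1 : (1 : Q) ∈ M)
    (φ : Q → Circle) (hφ : φ 1 = 1) : Subgroup Q where
  carrier := {h | h ∈ H ∧ ∀ w ∈ M, φ (h * w) = φ h * φ w}
  one_mem' := ⟨one_mem _, fun w _ => by rw [one_mul, hφ, one_mul]⟩
  mul_mem' {a b} ha hb := by
    refine ⟨mul_mem ha.1 hb.1, fun w hw => ?_⟩
    have e1 : φ (a * b) = φ a * φ b := by
      have h := ha.2 (b * 1) (hM b hb.1 1 h1)
      rwa [mul_one] at h
    rw [mul_assoc, ha.2 _ (hM b hb.1 w hw), hb.2 w hw, e1, mul_assoc]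
  inv_mem' {a} ha := by
    have hi : a⁻¹ ∈ H := inv_mem ha.1
    have key : ∀ w ∈ M, φ (a⁻¹ * w) = (φ a)⁻¹ * φ w := by
      intro w hw
      have h := ha.2 (a⁻¹ * w) (hM _ hi w hw)
      rw [mul_inv_cancel_left] at h
      rw [h, inv_mul_cancel_left]
    refine ⟨hi, fun w hw => ?_⟩
    have h2 := key 1 h1
    rw [mul_one, hφ, mul_one] at h2
    rw [key w hw, h2]

end

/-- JOB SG. -/
theorem sg (hP : S_PHI) (hG : S_PG) : S_SG := by
  intro Q _ _ _ hnil Λ hΛ hcomp S H hSH hS hH hχ
  have hDle : ∀ m, Λ ≤ D Λ m := fun m => Γ_le_D Λ m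
  have claim : ∀ m : ℕ, ∀ h ∈ H, h ∈ OC S (D Λ m) 1 := by
    intro m
    induction m with
    | zero =>
      intro h _
      have h1 : h ∈ D Λ 0 := L_le_D Λ 0 (L_zero_mem h)
      have h2 := mem_OC_one (S := S) (one_mem S) h1
      rwa [one_mul] at h2
    | succ m ih =>
      intro z hz
      by_contra hzn
      obtain ⟨φ, F, hcont, hinvS, hF, hφ1, hφz⟩ := hP Q hnil Λ hΛ hcomp S m z (ih z hz) hzn
      obtain ⟨M, hMdef⟩ : ∃ M, M = OC S (D Λ m) 1 := ⟨_, rfl⟩
      rw [← hMdef] at hcont hinvS hF
      have hMclosed : IsClosed M := by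
        rw [hMdef]
        exact isClosed_closure
      have hMr : ∀ w ∈ M, ∀ k ∈ D Λ m, w * k ∈ M := by
        intro w hw k hk
        rw [hMdef] at hw ⊢
        exact OC_mul_right hw hk
      have hHM : ∀ h ∈ H, h ∈ M := by
        intro h hh
        rw [hMdef]
        exact ih h hh
      have hMl : ∀ h ∈ H, ∀ w ∈ M, h * w ∈ M := by
        intro h hh w hw
        have h1 : (fun w => h * w) '' OC S (D Λ m) 1 ⊆ M := by
          refine (image_closure_subset_closure_image (continuous_const_mul h)).trans
            (closure_minimal ?_ hMclosed)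
          rintro _ ⟨_, ⟨s, hs, k, hk, rfl⟩, rfl⟩
          have h2 : h * (s * 1 * k) = (h * s) * k := by rw [mul_one, mul_assoc]
          change h * (s * 1 * k) ∈ M
          rw [h2]
          exact hMr _ (hHM _ (mul_mem hh (hSH hs))) k hk
        exact h1 ⟨w, hMdef ▸ hw, rfl⟩
      have h1M : (1 : Q) ∈ M := hHM 1 (one_mem _)
      have hφ11 : φ 1 = 1 := by
        refine hφ1 1 ?_
        have h2 := mem_OC_one (S := S) (Λ := D Λ (m + 1)) (one_mem S) (one_mem _)
        rwa [one_mul] at h2
      obtain ⟨K, hK⟩ : ∃ K, K = KK M H hMl h1M φ hφ11 := ⟨_, rfl⟩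
      have hKmem : ∀ h, h ∈ K ↔ h ∈ H ∧ ∀ w ∈ M, φ (h * w) = φ h * φ w := by
        intro h
        rw [hK]
        exact Iff.rfl
      have hφS : ∀ s ∈ S, φ s = 1 := by
        intro s hs
        have h2 := hinvS s hs 1 h1M
        rwa [mul_one, hφ11] at h2
      have hSK : S ≤ K := by
        intro s hs
        rw [hKmem]
        refine ⟨hSH hs, fun w hw => ?_⟩
        rw [hinvS s hs w hw, hφS s hs, one_mul]
      -- elements which move the function a little
      have hsmall : ∀ i, H.lowerCentralSeries (i + 1) ≤ K → ∀ h ∈ H.lowerCentralSeries i, h ∈ H →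
          (∀ w ∈ M, dist (φ (h * w)) (φ w) < 1 / 2) → h ∈ K := by
        intro i hi h hh hhH hd
        obtain ⟨f, hf⟩ : ∃ f : Q → Circle, f = fun w => φ (h * w) * (φ w)⁻¹ := ⟨_, rfl⟩
        have hfd : ∀ w ∈ M, dist (f w) 1 < 1 / 2 := by
          intro w hw
          have h2 := dist_mul_right' (φ (h * w)) (φ w) (φ w)⁻¹
          rw [mul_inv_cancel] at h2
          rw [hf]
          change dist (φ (h * w) * (φ w)⁻¹) 1 < 1 / 2
          rw [h2]
          exact hd w hw
        have hfS : ∀ s ∈ S, ∀ w ∈ M, f (s * w) = f w := by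
          intro s hs
          have hr : s⁻¹ * h * s * h⁻¹ ∈ H.lowerCentralSeries (i + 1) := by
            have h2 : ⁅h, s⁻¹⁆ ∈ H.lowerCentralSeries (i + 1) :=
              Subgroup.commutator_mem_commutator hh (inv_mem (hSH hs))
            have h3 : s⁻¹ * h * s * h⁻¹ = ⁅h, s⁻¹⁆⁻¹ := by
              rw [commutatorElement_inv, commutatorElement_def, inv_inv]
            rw [h3]
            exact inv_mem h2
          have hrK := (hKmem _).1 (hi hr)
          obtain ⟨r, hrd⟩ : ∃ r, r = s⁻¹ * h * s * h⁻¹ := ⟨_, rfl⟩
          rw [← hrd] at hrK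
          have h4 : ∀ w ∈ M, f (s * w) = φ r * f w := by
            intro w hw
            have h5 : h * (s * w) = s * (r * (h * w)) := by
              rw [hrd]
              group
            have h6 : h * w ∈ M := hMl h hhH w hw
            rw [hf]
            change φ (h * (s * w)) * (φ (s * w))⁻¹ = φ r * (φ (h * w) * (φ w)⁻¹)
            rw [h5, hinvS s hs _ (hMl r hrK.1 _ h6), hrK.2 _ h6, hinvS s hs w hw, mul_assoc]
          have h7 : ∀ n : ℕ, ∀ w ∈ M, f (s ^ n * w) = φ r ^ n * f w := by
            intro n
            induction n with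
            | zero => intro w _; rw [pow_zero, pow_zero, one_mul, one_mul]
            | succ n ihn =>
              intro w hw
              have h8 : s ^ n * w ∈ M := hMl _ (pow_mem (hSH hs) n) w hw
              rw [pow_succ', mul_assoc, h4 _ h8, ihn w hw, pow_succ', mul_assoc]
          have h9 : φ r = 1 := by
            refine circle_no_small _ fun n => ?_
            have h10 := dist_mul_right' (φ r ^ n) 1 (f 1)
            rw [one_mul, ← h7 n 1 h1M] at h10
            rw [← h10]
            have h11 := hfd _ (hMl _ (pow_mem (hSH hs) n) 1 h1M)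
            have h12 := hfd 1 h1M
            have h13 := dist_triangle_right (f (s ^ n * 1)) (f 1) 1
            linarith
          intro w hw
          rw [h4 w hw, h9, one_mul]
        have hfD : ∀ w ∈ M, ∀ k ∈ D Λ m, f (w * k) = f w := by
          intro w hw k hk
          rw [hf]
          change φ (h * (w * k)) * (φ (w * k))⁻¹ = φ (h * w) * (φ w)⁻¹
          rw [← mul_assoc h, hF _ (hMl h hhH w hw) k hk, hF w hw k hk]
          rw [mul_inv, mul_mul_mul_comm, mul_inv_cancel, mul_one]
        rw [hKmem]
        refine ⟨hhH, ?_⟩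
        have hc1 : ContinuousOn (fun w => φ (h * w)) M :=
          hcont.comp (continuous_const_mul h).continuousOn fun w hw => hMl h hhH w hw
        have hc2 : ContinuousOn (fun w => φ h * φ w) M := continuousOn_const.mul hcont
        have hEq : EqOn (fun w => φ (h * w)) (fun w => φ h * φ w)
            {z | ∃ s ∈ S, ∃ l ∈ D Λ m, z = s * 1 * l} := by
          rintro _ ⟨s, hs, l, hl, rfl⟩
          change φ (h * (s * 1 * l)) = φ h * φ (s * 1 * l)
          have hs1 : s * 1 ∈ M := hMl s (hSH hs) 1 h1M
          have h2 := hfD (s * 1) hs1 l hl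
          rw [hfS s hs 1 h1M, hf] at h2
          change φ (h * (s * 1 * l)) * (φ (s * 1 * l))⁻¹ = φ (h * 1) * (φ 1)⁻¹ at h2
          rw [hφ11] at h2
          simp only [inv_one, mul_one] at h2 ⊢
          exact mul_inv_eq_iff_eq_mul.1 h2
        refine hEq.of_subset_closure hc1 hc2 ?_ ?_
        · rw [hMdef]
          exact subset_closure
        · rw [hMdef]
          exact subset_rfl
      -- paths
      have hpath : ∀ i, H.lowerCentralSeries (i + 1) ≤ K → H.lowerCentralSeries i ≤ H →
          ∀ h, JIn (H.lowerCentralSeries i) h → h ∈ K := by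
        rintro i hi hiH h ⟨γ, hγ, hγ0, hγ1, hγH⟩
        obtain ⟨T, hT⟩ : ∃ T : Set unitInterval, T = {t | γ t ∈ K} := ⟨_, rfl⟩
        have hclosed : IsClosed T := by
          have h2 : T = ⋂ w : M, {t | φ (γ t * w) = φ (γ t) * φ w} := by
            ext t
            rw [hT, mem_iInter]
            change γ t ∈ K ↔ _
            rw [hKmem]
            exact ⟨fun h w => h.2 w w.2, fun h => ⟨hiH (hγH t), fun w hw => h ⟨w, hw⟩⟩⟩
          rw [h2]
          refine isClosed_iInter fun w => isClosed_eq ?_ ?_
          · exact hcont.comp_continuous (hγ.mul continuous_const)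
              fun t => hMl _ (hiH (hγH t)) w w.2
          · exact (hcont.comp_continuous hγ fun t => hHM _ (hiH (hγH t))).mul continuous_const
        have hopen : IsOpen T := by
          rw [isOpen_iff_mem_nhds]
          intro t₀ ht₀
          have hev : ∀ᶠ t in 𝓝 t₀, ∀ ξ ∈ (univ : Set (Q ⧸ Λ)),
              ∀ w ∈ M, (QuotientGroup.mk w : Q ⧸ Λ) = ξ →
                dist (φ (γ t * (γ t₀)⁻¹ * w)) (φ w) < 1 / 2 := by
            refine isCompact_univ.eventually_forall_of_forall_eventually
              (P := fun t (ξ : Q ⧸ Λ) => ∀ w ∈ M, (QuotientGroup.mk w : Q ⧸ Λ) = ξ →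
                dist (φ (γ t * (γ t₀)⁻¹ * w)) (φ w) < 1 / 2) ?_
            intro ξ _
            obtain ⟨w₀, rfl⟩ := QuotientGroup.mk_surjective ξ
            by_cases hw₀ : w₀ ∈ M
            · have hc : ContinuousOn (fun q : unitInterval × Q =>
                  dist (φ (γ q.1 * (γ t₀)⁻¹ * q.2)) (φ q.2)) (univ ×ˢ M) := by
                refine continuous_dist.comp_continuousOn (ContinuousOn.prodMk ?_ ?_)
                · refine hcont.comp (t := M) (Continuous.continuousOn (by fun_prop)) ?_
                  rintro ⟨t, w⟩ ⟨_, hw⟩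
                  exact hMl _ (mul_mem (hiH (hγH t)) (inv_mem (hiH (hγH t₀)))) w hw
                · refine hcont.comp (t := M) (Continuous.continuousOn (by fun_prop)) ?_
                  rintro ⟨t, w⟩ ⟨_, hw⟩
                  exact hw
              have hc0 := hc (t₀, w₀) ⟨mem_univ _, hw₀⟩
              have hmem : ∀ᶠ q in 𝓝[univ ×ˢ M] (t₀, w₀),
                  dist (φ (γ q.1 * (γ t₀)⁻¹ * q.2)) (φ q.2) < 1 / 2 := by
                refine hc0.tendsto.eventually (gt_mem_nhds ?_)
                change dist (φ (γ t₀ * (γ t₀)⁻¹ * w₀)) (φ w₀) < 1 / 2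
                rw [mul_inv_cancel, one_mul, dist_self]
                norm_num
              rw [eventually_nhdsWithin_iff, nhds_prod_eq, eventually_prod_iff] at hmem
              obtain ⟨pa, hpa, pb, hpb, hab⟩ := hmem
              rw [nhds_prod_eq]
              have hB' : (QuotientGroup.mk '' {b | pb b} : Set (Q ⧸ Λ)) ∈
                  𝓝 (QuotientGroup.mk w₀) :=
                QuotientGroup.isOpenMap_coe.image_mem_nhds hpb
              filter_upwards [prod_mem_prod hpa hB'] with q hq w hw hwq
              obtain ⟨hq1, b, hb, hbq⟩ := hq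
              have h5 : w⁻¹ * b ∈ Λ := by
                rw [← QuotientGroup.eq, hbq, hwq]
              have h6 : b = w * (w⁻¹ * b) := (mul_inv_cancel_left w b).symm
              have hbM : b ∈ M := by
                rw [h6]
                exact hMr w hw _ (hDle m h5)
              have h7 := hab hq1 hb ⟨mem_univ _, hbM⟩
              have h8 : γ q.1 * (γ t₀)⁻¹ * b = γ q.1 * (γ t₀)⁻¹ * w * (w⁻¹ * b) := by
                rw [mul_assoc _ w, mul_inv_cancel_left]
              have h9 : φ b = φ w * F (w⁻¹ * b) := by
                conv_lhs => rw [h6]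
                exact hF w hw _ (hDle m h5)
              simp only at h7
              rw [h8, hF _ (hMl _ (mul_mem (hiH (hγH q.1)) (inv_mem (hiH (hγH t₀)))) w hw) _
                (hDle m h5), h9, dist_mul_right'] at h7
              exact h7
            · have hB' : (QuotientGroup.mk '' Mᶜ : Set (Q ⧸ Λ)) ∈ 𝓝 (QuotientGroup.mk w₀) :=
                QuotientGroup.isOpenMap_coe.image_mem_nhds (hMclosed.isOpen_compl.mem_nhds hw₀)
              rw [nhds_prod_eq]
              filter_upwards [prod_mem_prod univ_mem hB'] with q hq w hw hwq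
              obtain ⟨-, b, hb, hbq⟩ := hq
              exfalso
              have h5 : w⁻¹ * b ∈ Λ := by
                rw [← QuotientGroup.eq, hbq, hwq]
              apply hb
              rw [← mul_inv_cancel_left w b]
              exact hMr w hw _ (hDle m h5)
          filter_upwards [hev] with t ht
          rw [hT] at ht₀ ⊢
          change γ t ∈ K
          change γ t₀ ∈ K at ht₀
          have h2 : γ t * (γ t₀)⁻¹ ∈ K := by
            refine hsmall i hi _ (mul_mem (hγH t) (inv_mem (hγH t₀)))
              (mul_mem (hiH (hγH t)) (inv_mem (hiH (hγH t₀)))) fun w hw => ?_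
            exact ht _ (mem_univ _) w hw rfl
          have h3 := mul_mem h2 ht₀
          rwa [inv_mul_cancel_right] at h3
        have h0 : (0 : unitInterval) ∈ T := by
          rw [hT]
          change γ 0 ∈ K
          rw [hγ0]
          exact one_mem K
        have huniv : T = univ := by
          rcases isClopen_iff.1 ⟨hclosed, hopen⟩ with h10 | h10
          · rw [h10] at h0
            exact absurd h0 (notMem_empty _)
          · exact h10
        have h11 : (1 : unitInterval) ∈ T := huniv ▸ mem_univ _
        rw [hT] at h11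
        change γ 1 ∈ K at h11
        rwa [hγ1] at h11
      have hleH : ∀ i, H.lowerCentralSeries i ≤ H := fun i =>
        (Subgroup.lowerCentralSeries_antitone _ (Nat.zero_le i)).trans (le_of_eq rfl)
      have hHK : H ≤ K := by
        obtain ⟨c, hc⟩ : ∃ c, L Q c = ⊥ := Subgroup.nilpotent_iff_lowerCentralSeries.1 hnil
        have hdown : ∀ j, j ≤ c → H.lowerCentralSeries (c - j) ≤ K := by
          intro j
          induction j with
          | zero =>
            intro _
            have h2 : ∀ n, H.lowerCentralSeries n ≤ L Q n := by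
              intro n
              induction n with
              | zero => exact le_top
              | succ n ihn => exact Subgroup.commutator_mono ihn le_top
            have h2 := h2 c
            rw [hc] at h2
            exact (h2.trans bot_le)
          | succ j ihj =>
            intro hj
            have h2 := ihj (by omega)
            have h3 : c - j = c - (j + 1) + 1 := by omega
            rw [h3] at h2
            exact hG Q S H hSH hS hH (c - (j + 1)) K h2
              (hpath _ h2 (hleH _)) fun _ => hSK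
        have h2 := hdown c le_rfl
        rw [Nat.sub_self] at h2
        exact h2
      refine hφz (hχ φ (hcont.mono hHM) (fun x hx y hy => ?_) hφS (fun h hh hhΛ => ?_) z hz)
      · exact ((hKmem x).1 (hHK hx)).2 y (hHM y hy)
      · refine hφ1 h ?_
        have h2 := mem_OC_one (S := S) (one_mem S) (hDle (m + 1) hhΛ)
        rwa [one_mul] at h2
  obtain ⟨c, hc⟩ : ∃ c, L Q c = ⊥ := Subgroup.nilpotent_iff_lowerCentralSeries.1 hnil
  have hD : D Λ c = Λ := by
    unfold D
    rw [hc, bot_sup_eq]
    apply le_antisymm
    · exact Subgroup.topologicalClosure_minimal _ le_rfl hΛ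
    · exact Subgroup.le_topologicalClosure _
  have h1 := claim c
  rw [hD] at h1
  exact h1

end Pool.Agent.Q210.NP
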