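import Pool.Agent.Q185.NP.Stm
import Pool.Agent.Q183.FC.Sub

/-!
# Project NP, job X: the exponential map of a Lie group
-/

set_option autoImplicit false
set_option linter.unusedSectionVars false

namespace Pool.Agent.Q210.NP

open Topology Filter Set Metric Pool.Agent.Q185.NP Pool.Agent.H298R3.Exp Pool.Agent.Q183.FC
open scoped Manifold ContDiff

section

variable {E : Type} [NormedAddCommGroup E] [NormedSpace ℝ E]
  {G : Type} [TopologicalSpace G] [ChartedSpace E G] [Group G] [LieGroup 𝓘(ℝ, E) ∞ G]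
  {L : OpenPartialHomeomorph G E} {ρ : ℝ}

theorem exists_small (v : E) {r : ℝ} (hr : 0 < r) : ∃ m : ℕ, ‖((2:ℝ) ^ m)⁻¹ • v‖ < r := by
  have h1 : Tendsto (fun n : ℕ => ((2:ℝ) ^ n)⁻¹) atTop (𝓝 0) :=
    tendsto_inv_atTop_zero.comp (tendsto_pow_atTop_atTop_of_one_lt (by norm_num))
  have h2 : Tendsto (fun n : ℕ => ‖((2:ℝ) ^ n)⁻¹ • v‖) atTop (𝓝 0) := by
    have h3 := (h1.smul_const v).norm
    simpa using h3
  exact (h2.eventually (gt_mem_nhds hr)).exists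

/-- the value computed at the level `m` -/
noncomputable def ev (L : OpenPartialHomeomorph G E) (m : ℕ) (v : E) : G :=
  L.symm (((2:ℝ) ^ m)⁻¹ • v) ^ (2 ^ m)

theorem ev_mono (hL : LogChart L ρ) {v : E} {m m' : ℕ} (hm : ‖((2:ℝ) ^ m)⁻¹ • v‖ < ρ)
    (h : m ≤ m') : ev L m v = ev L m' v := by
  obtain ⟨k, rfl⟩ := Nat.exists_eq_add_of_le h
  have e1 : (2:ℝ) ^ k • (((2:ℝ) ^ (m + k))⁻¹ • v) = ((2:ℝ) ^ m)⁻¹ • v := by
    rw [smul_smul, pow_add, mul_inv, mul_comm ((2:ℝ) ^ m)⁻¹, mul_inv_cancel_left₀ (by positivity)]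
  have h2 := symm_two_pow hL k (v := ((2:ℝ) ^ (m + k))⁻¹ • v) (by rw [e1]; exact hm)
  rw [e1] at h2
  unfold ev
  have h3 : 2 ^ k * 2 ^ m = 2 ^ (m + k) := by rw [pow_add, mul_comm]
  rw [h2, ← pow_mul, h3]

/-- the level -/
noncomputable def lvl (v : E) {ρ : ℝ} (hρ : 0 < ρ) : ℕ := (exists_small v hρ).choose

/-- the exponential map -/
noncomputable def ex0 (L : OpenPartialHomeomorph G E) {ρ : ℝ} (hρ : 0 < ρ) (v : E) : G :=
  ev L (lvl v hρ) v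

theorem ex0_eq (hL : LogChart L ρ) (hρ : 0 < ρ) {v : E} {m : ℕ} (hm : ‖((2:ℝ) ^ m)⁻¹ • v‖ < ρ) :
    ex0 L hρ v = ev L m v := by
  have h1 : ‖((2:ℝ) ^ (lvl v hρ))⁻¹ • v‖ < ρ := (exists_small v hρ).choose_spec
  unfold ex0
  rw [ev_mono hL h1 (le_max_left _ m), ev_mono hL hm (le_max_right (lvl v hρ) m)]

theorem ex0_small (hL : LogChart L ρ) (hρ : 0 < ρ) {v : E} (hv : ‖v‖ < ρ) :
    ex0 L hρ v = L.symm v := by
  rw [ex0_eq hL hρ (m := 0) (by simpa using hv)]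
  unfold ev
  simp

theorem ex0_cont (hL : LogChart L ρ) (hρ : 0 < ρ) : Continuous (ex0 L hρ) := by
  have hG : IsTopologicalGroup G := hL.topGroup
  rw [continuous_iff_continuousAt]
  intro v
  obtain ⟨m, hm⟩ := exists_small v hρ
  have h1 : ContinuousAt (ev L m) v := by
    unfold ev
    exact (ContinuousAt.comp (f := fun y : E => ((2:ℝ) ^ m)⁻¹ • y) (g := L.symm)
      (continuousAt_symm_of_lt hL hm) (by fun_prop)).pow _
  refine h1.congr ?_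
  have h2 : ∀ᶠ y in 𝓝 v, ‖((2:ℝ) ^ m)⁻¹ • y‖ < ρ := by
    have h3 : Continuous fun y : E => ‖((2:ℝ) ^ m)⁻¹ • y‖ := by fun_prop
    exact (h3.tendsto v).eventually (gt_mem_nhds hm)
  filter_upwards [h2] with y hy
  exact (ex0_eq hL hρ hy).symm

theorem ex0_add (hL : LogChart L ρ) (hρ : 0 < ρ) (v : E) (s t : ℝ) :
    ex0 L hρ ((s + t) • v) = ex0 L hρ (s • v) * ex0 L hρ (t • v) := by
  obtain ⟨δ, hδ, hδρ, hadd⟩ := hL.exists_add
  obtain ⟨c, hc⟩ : ∃ c : ℝ, c = |s| + |t| + 1 := ⟨_, rfl⟩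
  have hs0 := abs_nonneg s
  have ht0 := abs_nonneg t
  have hc0 : 0 < c := by rw [hc]; linarith
  obtain ⟨m, hm⟩ := exists_small (c • v) hδ
  obtain ⟨x, hx⟩ : ∃ x : E, x = ((2:ℝ) ^ m)⁻¹ • (c • v) := ⟨_, rfl⟩
  rw [← hx] at hm
  have hr : ∀ r : ℝ, ((2:ℝ) ^ m)⁻¹ • (r • v) = (r / c) • x := by
    intro r
    rw [hx, smul_smul, smul_smul, smul_smul]
    congr 1
    field_simp
  have habs : ∀ r : ℝ, |r| ≤ c → |r / c| ≤ 1 := by
    intro r hrc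
    rw [abs_div, abs_of_pos hc0]
    exact div_le_one_of_le₀ hrc hc0.le
  have hnorm : ∀ r : ℝ, |r| ≤ c → ‖((2:ℝ) ^ m)⁻¹ • (r • v)‖ < ρ := by
    intro r hrc
    rw [hr, norm_smul, Real.norm_eq_abs]
    have h1 := mul_le_of_le_one_left (norm_nonneg x) (habs r hrc)
    linarith
  have h1 : |s| ≤ c := by rw [hc]; linarith
  have h2 : |t| ≤ c := by rw [hc]; linarith
  have h3 : |s + t| ≤ c := by
    rw [hc]
    linarith [abs_add_le s t]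
  rw [ex0_eq hL hρ (hnorm _ h1), ex0_eq hL hρ (hnorm _ h2), ex0_eq hL hρ (hnorm _ h3)]
  unfold ev
  rw [hr, hr, hr]
  have h4 := hadd x hm (s / c) (t / c) (habs s h1) (habs t h2)
  have h5 := hadd x hm (t / c) (s / c) (habs t h2) (habs s h1)
  have hcomm : Commute (L.symm ((s / c) • x)) (L.symm ((t / c) • x)) := by
    change _ * _ = _ * _
    rw [h4, h5, add_comm]
  rw [← hcomm.mul_pow, h4, add_div]

theorem tendsto_two : Tendsto (fun n : ℕ => ((2:ℝ) ^ n)⁻¹) atTop (𝓝 0) :=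
  tendsto_inv_atTop_zero.comp (tendsto_pow_atTop_atTop_of_one_lt (by norm_num))

theorem ex0_trotter_small (hL : LogChart L ρ) (hρ : 0 < ρ) {v w : E} (hvw : ‖v + w‖ < ρ) :
    Tendsto (fun m : ℕ => (ex0 L hρ (((2 : ℝ) ^ m)⁻¹ • v) * ex0 L hρ (((2 : ℝ) ^ m)⁻¹ • w)) ^ (2 ^ m))
      atTop (𝓝 (ex0 L hρ (v + w))) := by
  have hD := hasFDerivAt_MM hL.mem_atlas hL.one_mem hL.map_one
  have hM0 : MM L (0 : E × E) = 0 := by
    show L (L.symm (0:E) * L.symm (0:E)) = 0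
    rw [hL.symm_zero, mul_one, hL.map_one]
  have hlim := hD.lim (v, w) (c := fun n : ℕ => (2:ℝ) ^ n) (l := atTop) (by
    have : (fun n : ℕ => ‖(2:ℝ) ^ n‖) = fun n => (2:ℝ) ^ n := by
      funext n; rw [Real.norm_of_nonneg (by positivity)]
    rw [this]
    exact tendsto_pow_atTop_atTop_of_one_lt (by norm_num))
  simp only [zero_add, hM0, sub_zero] at hlim
  have hlim' : Tendsto (fun n : ℕ => (2:ℝ) ^ n • MM L (((2:ℝ) ^ n)⁻¹ • (v, w))) atTop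
      (𝓝 (v + w)) := by simpa using hlim
  have hT : Tendsto (fun n : ℕ => L.symm ((2:ℝ) ^ n • MM L (((2:ℝ) ^ n)⁻¹ • (v, w)))) atTop
      (𝓝 (L.symm (v + w))) := (continuousAt_symm_of_lt hL hvw).tendsto.comp hlim'
  have h1 : Tendsto (fun n : ℕ => ((2:ℝ) ^ n)⁻¹ • (v, w)) atTop (𝓝 (0 : E × E)) := by
    simpa using tendsto_two.smul_const (v, w)
  have h2 : ∀ᶠ n : ℕ in atTop, ((2:ℝ) ^ n)⁻¹ • (v, w) ∈ Om L :=
    h1.eventually ((isOpen_Om hL.mem_atlas).mem_nhds (zero_mem_Om hL.one_mem hL.map_one))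
  have h3 : ∀ᶠ n : ℕ in atTop, ‖(2:ℝ) ^ n • MM L (((2:ℝ) ^ n)⁻¹ • (v, w))‖ < ρ :=
    hlim'.norm.eventually (gt_mem_nhds hvw)
  have hsm : ∀ u : E, ∀ᶠ n : ℕ in atTop, ‖((2:ℝ) ^ n)⁻¹ • u‖ < ρ := by
    intro u
    have h4 : Tendsto (fun n : ℕ => ‖((2:ℝ) ^ n)⁻¹ • u‖) atTop (𝓝 0) := by
      simpa using (tendsto_two.smul_const u).norm
    exact h4.eventually (gt_mem_nhds hρ)
  rw [ex0_small hL hρ hvw]
  refine hT.congr' ?_
  filter_upwards [h2, h3, hsm v, hsm w] with n hn2 hn3 hnv hnw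
  rw [symm_two_pow hL n hn3, ex0_small hL hρ hnv, ex0_small hL hρ hnw]
  have h4 : L.symm (MM L (((2:ℝ) ^ n)⁻¹ • (v, w))) =
      L.symm (((2:ℝ) ^ n)⁻¹ • v) * L.symm (((2:ℝ) ^ n)⁻¹ • w) := L.left_inv hn2.2
  rw [h4]

theorem ex0_trotter (hL : LogChart L ρ) (hρ : 0 < ρ) (v w : E) :
    Tendsto (fun m : ℕ => (ex0 L hρ (((2 : ℝ) ^ m)⁻¹ • v) * ex0 L hρ (((2 : ℝ) ^ m)⁻¹ • w)) ^ (2 ^ m))
      atTop (𝓝 (ex0 L hρ (v + w))) := by
  have hG : IsTopologicalGroup G := hL.topGroup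
  obtain ⟨r, hr⟩ := exists_small (v + w) hρ
  rw [← tendsto_add_atTop_iff_nat r]
  have h1 : ‖((2:ℝ) ^ r)⁻¹ • v + ((2:ℝ) ^ r)⁻¹ • w‖ < ρ := by rw [← smul_add]; exact hr
  have h2 := (ex0_trotter_small hL hρ h1).pow (2 ^ r)
  have h3 : ex0 L hρ (((2:ℝ) ^ r)⁻¹ • v + ((2:ℝ) ^ r)⁻¹ • w) ^ (2 ^ r) = ex0 L hρ (v + w) := by
    rw [ex0_small hL hρ h1, ex0_eq hL hρ hr]
    unfold ev
    rw [smul_add]
  rw [h3] at h2
  refine h2.congr fun m => ?_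
  have h4 : ∀ u : E, ((2:ℝ) ^ m)⁻¹ • (((2:ℝ) ^ r)⁻¹ • u) = ((2:ℝ) ^ (m + r))⁻¹ • u := by
    intro u
    rw [smul_smul, pow_add, mul_inv]
  rw [h4, h4, ← pow_mul, ← pow_add]

theorem ex0_nhds (hL : LogChart L ρ) (hρ : 0 < ρ) {O : Set E} (hO : O ∈ 𝓝 (0 : E)) :
    ex0 L hρ '' O ∈ 𝓝 (1 : G) := by
  have h1 : ∀ᶠ g in 𝓝 (1 : G), g ∈ L.source := L.open_source.mem_nhds hL.one_mem
  have h2 : ∀ᶠ g in 𝓝 (1 : G), L g ∈ O := hL.continuousAt.eventually hO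
  filter_upwards [h1, h2] with g hg1 hg2
  refine ⟨L g, hg2, ?_⟩
  have h3 : ‖L g‖ < ρ := by
    have h4 := L.map_source hg1
    rwa [hL.target_eq, mem_ball_zero_iff] at h4
  rw [ex0_small hL hρ h3, L.left_inv hg1]

end

/-- JOB X. -/
theorem expo : S_X := by
  intro E _ _ _ G _ _ _ _
  obtain ⟨L, ρ, hL⟩ := exists_logChart E G
  have hρ := hL.pos
  let A : (Fin (Module.finrank ℝ E) → ℝ) ≃L[ℝ] E := (Module.finBasis ℝ E).equivFunL.symm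
  refine ⟨Module.finrank ℝ E, fun v => ex0 L hρ (A v), ?_, ?_, ?_, ?_⟩
  · exact (ex0_cont hL hρ).comp A.continuous
  · intro v s t
    simp only [map_smul]
    exact ex0_add hL hρ (A v) s t
  · intro v w
    simp only [map_smul, map_add]
    exact ex0_trotter hL hρ (A v) (A w)
  · intro O hO
    have h1 : A '' O ∈ 𝓝 (0 : E) := by
      have h2 := A.toHomeomorph.isOpenMap.image_mem_nhds hO
      have h3 : A.toHomeomorph (0 : Fin (Module.finrank ℝ E) → ℝ) = 0 := map_zero A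
      rw [h3] at h2
      exact h2
    have h4 := ex0_nhds hL hρ h1
    rw [image_image] at h4
    exact h4

end Pool.Agent.Q210.NP
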